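import Pool.Agent.Helper5.FRC.Defs

/-!
# Packet FRC-ENDF (MP_79b960_co)
-/

set_option autoImplicit false

namespace Pool.Agent.Helper77.FRC.ENDF

open Finset
open Pool.Agent.Helper5.FRC
open Pool.Agent.Helper55.FR
open Pool.Agent.Helper5

theorem even_of_inv {V : Type} [DecidableEq V] (D : Finset V) (r : V → V)
    (h1 : ∀ x ∈ D, r x ∈ D) (h2 : ∀ x ∈ D, r (r x) = x) (h3 : ∀ x ∈ D, r x ≠ x) :
    Even D.card := by
  have h : ∑ _x ∈ D, (1 : ZMod 2) = 0 :=
    Finset.sum_involution (fun a _ => r a) (fun a _ => by decide) (fun a ha _ => h3 a ha)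
      (fun a ha => h1 a ha) (fun a ha => h2 a ha)
  rw [Finset.sum_const, nsmul_eq_mul, mul_one] at h
  exact (ZMod.natCast_eq_zero_iff_even).1 h

theorem t : EndfStmt := by
  intro V _ _ G _ hG M hM n m hc hadj hMm hsol
  classical
  obtain ⟨P, Y, -, hP, hY, hfix, hcard, hodd⟩ := hsol
  have hPP : ∀ v, P (P v) = v := fun v => (hP v (mem_univ v)).2.1
  have hP3 : ∀ v, P v = v ∨ P v = n v ∨ n (P v) = v := fun v => (hP v (mem_univ v)).2.2
  have hf1 : ∀ v, P v = v → v ∈ Y := fun v h => (hfix v (mem_univ v) h).1
  have hf2 : ∀ v, P v = v → P (n v) ≠ n v := fun v h => (hfix v (mem_univ v) h).2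
  -- the matching `M₂`
  let q : V → V := fun v => if v ∈ Y then m v else P v
  have hq1 : ∀ v, v ∈ Y → q v = m v := fun v h => if_pos h
  have hq2 : ∀ v, v ∉ Y → q v = P v := fun v h => if_neg h
  have hqq : ∀ v, q (q v) = v := by
    intro v
    by_cases hv : v ∈ Y
    · rw [hq1 v hv, hq1 _ (hY v hv).1, hc.mm]
    · have h1 : P v ∉ Y := fun h => hv (by have h2 := (hY _ h).2; rwa [hPP] at h2)
      rw [hq2 v hv, hq2 _ h1, hPP]
  have hqadj : ∀ v, G.Adj v (q v) := by
    intro v
    rw [hadj]
    by_cases hv : v ∈ Y
    · rw [hq1 v hv]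
      exact Or.inr (Or.inr rfl)
    · rw [hq2 v hv]
      rcases hP3 v with h | h | h
      · exact absurd (hf1 v h) hv
      · exact Or.inl h
      · exact Or.inr (Or.inl h.symm)
  let M₂ : G.Subgraph :=
    { verts := Set.univ
      Adj := fun x y => y = q x
      adj_sub := by
        rintro x y rfl
        exact hqadj x
      edge_vert := fun _ => Set.mem_univ _
      symm := ⟨by
        rintro x y rfl
        exact (hqq x).symm⟩ }
  have hM2 : ∀ x y, M₂.Adj x y ↔ y = q x := fun x y => Iff.rfl
  have hM₂ : M₂.IsPerfectMatching := by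
    rw [SimpleGraph.Subgraph.isPerfectMatching_iff]
    intro v
    exact ⟨q v, rfl, fun y hy => hy⟩
  -- no odd set with all leaving edges in both matchings
  have core : ∀ K : Finset V, Odd K.card → (∀ x ∈ K, ∀ y ∉ K, G.Adj x y → M.Adj x y) →
      ¬ ∀ x ∈ K, ∀ y ∉ K, G.Adj x y → M₂.Adj x y := by
    intro K hK h1 h2
    have h3 : Inv n K := by
      intro x hx
      by_contra hnx
      have h4 := h1 x hx _ hnx ((hadj _ _).2 (Or.inl rfl))
      rw [hMm] at h4
      exact hc.nm x h4
    obtain ⟨x, hx, hxY, hmx⟩ := hodd K (subset_univ K) h3 hK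
    have h5 := h2 x hx _ hmx ((hadj _ _).2 (Or.inr (Or.inr rfl)))
    rw [hM2, hq2 x hxY] at h5
    rcases hP3 x with h | h | h
    · exact hxY (hf1 x h)
    · rw [h] at h5
      exact hc.nm x h5.symm
    · rw [← h5] at h
      exact hc.nm (m x) (h.trans (hc.mm x).symm)
  -- the involution `r`
  let r : V → V := fun v => if P v = v then n v else if P v = n v then n.symm v
    else if P (n v) = n v then v else n v
  have hr1 : ∀ v, P v = v → r v = n v := fun v h => if_pos h
  have hr2 : ∀ v, P v = n v → r v = n.symm v := by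
    intro v h
    have h1 : P v ≠ v := by rw [h]; exact hc.nv v
    show (if P v = v then n v else _) = _
    rw [if_neg h1, if_pos h]
  have hr3 : ∀ v, n (P v) = v → P (n v) = n v → r v = v := by
    intro v h h'
    have h1 : P v ≠ v := by
      intro h2
      rw [h2] at h
      exact hc.nv v h
    have h2 : P v ≠ n v := by
      intro h3
      rw [h3] at h
      exact hc.nn v h
    show (if P v = v then n v else _) = _
    rw [if_neg h1, if_neg h2, if_pos h']
  have hr4 : ∀ v, n (P v) = v → P (n v) ≠ n v → r v = n v := by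
    intro v h h'
    have h1 : P v ≠ v := by
      intro h2
      rw [h2] at h
      exact hc.nv v h
    have h2 : P v ≠ n v := by
      intro h3
      rw [h3] at h
      exact hc.nn v h
    show (if P v = v then n v else _) = _
    rw [if_neg h1, if_neg h2, if_neg h']
  have hsy : ∀ v, n (n.symm v) = v := fun v => n.apply_symm_apply v
  have hsy' : ∀ v, n.symm (n v) = v := fun v => n.symm_apply_apply v
  have hrr : ∀ v, r (r v) = v := by
    intro v
    rcases hP3 v with h | h | h
    · rw [hr1 v h]
      rcases hP3 (n v) with h1 | h1 | h1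
      · exact absurd h1 (hf2 v h)
      · rw [hr2 _ h1, hsy']
      · exfalso
        have h2 : P (n v) = v := n.injective h1
        have h3 := hPP (n v)
        rw [h2, h] at h3
        exact hc.nv v h3.symm
    · rw [hr2 v h]
      rcases hP3 (n.symm v) with h1 | h1 | h1
      · rw [hr1 _ h1, hsy]
      · exfalso
        rw [hsy] at h1
        have h2 := hPP (n.symm v)
        rw [h1, h] at h2
        have h3 : n (n v) = v := by rw [h2, hsy]
        exact hc.nn v h3
      · have h4 : P (n (n.symm v)) ≠ n (n.symm v) := by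
          rw [hsy, h]
          exact hc.nv v
        rw [hr4 _ h1 h4, hsy]
    · by_cases h' : P (n v) = n v
      · rw [hr3 v h h', hr3 v h h']
      · rw [hr4 v h h']
        rcases hP3 (n v) with h1 | h1 | h1
        · exact absurd h1 h'
        · rw [hr2 _ h1, hsy']
        · exfalso
          have h2 : P (n v) = v := n.injective h1
          have h3 := hPP (n v)
          rw [h2] at h3
          rw [h3] at h
          exact hc.nn v h
  have hrn : ∀ v, r v = v → P (n v) = n v := by
    intro v hv
    rcases hP3 v with h | h | h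
    · rw [hr1 v h] at hv
      exact absurd hv (hc.nv v)
    · rw [hr2 v h] at hv
      have h2 := congrArg n hv
      rw [hsy] at h2
      exact absurd h2.symm (hc.nv v)
    · by_contra h'
      rw [hr4 v h h'] at hv
      exact hc.nv v hv
  set H := G.deleteEdges (M.edgeSet ∪ M₂.edgeSet) with hH
  have hHadj : ∀ x y, H.Adj x y ↔ G.Adj x y ∧ ¬ M.Adj x y ∧ ¬ M₂.Adj x y := by
    intro x y
    rw [hH, SimpleGraph.deleteEdges_adj]
    constructor
    · rintro ⟨ha, hb⟩
      exact ⟨ha, fun h => hb (Or.inl h), fun h => hb (Or.inr h)⟩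
    · rintro ⟨ha, hb, hc⟩
      refine ⟨ha, fun h => ?_⟩
      rcases h with h | h
      · exact hb h
      · exact hc h
  have hnotM : ∀ v w, (w = n v ∨ n w = v) → w ≠ m v := by
    rintro v w (h | h) hw
    · exact hc.nm v (h.symm.trans hw)
    · rw [hw] at h
      exact hc.nm (m v) (h.trans (hc.mm v).symm)
  have hrH : ∀ v, r v ≠ v → H.Adj v (r v) := by
    intro v hv
    have h1 : r v = n v ∨ n (r v) = v := by
      rcases hP3 v with h | h | h
      · exact Or.inl (hr1 v h)
      · right
        rw [hr2 v h, hsy]
      · by_cases h' : P (n v) = n v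
        · exact absurd (hr3 v h h') hv
        · exact Or.inl (hr4 v h h')
    have h2 : r v ≠ P v := by
      intro h2
      rcases hP3 v with h | h | h
      · rw [h] at h2
        exact hv h2
      · rw [hr2 v h, h] at h2
        have h3 := congrArg n h2
        rw [hsy] at h3
        exact hc.nn v h3.symm
      · by_cases h' : P (n v) = n v
        · exact hv (hr3 v h h')
        · rw [hr4 v h h'] at h2
          rw [← h2] at h
          exact hc.nn v h
    rw [hHadj, hadj, hMm, hM2]
    refine ⟨?_, hnotM v _ h1, ?_⟩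
    · rcases h1 with h | h
      · exact Or.inl h
      · exact Or.inr (Or.inl h.symm)
    · by_cases hvY : v ∈ Y
      · rw [hq1 v hvY]
        exact hnotM v _ h1
      · rw [hq2 v hvY]
        exact h2
  have hcomp : {C : H.ConnectedComponent | Odd C.supp.ncard}.ncard ≤ 4 := by
    have h1 : {C : H.ConnectedComponent | Odd C.supp.ncard} ⊆
        (((univ.filter fun v => r v = v).image H.connectedComponentMk :
          Finset H.ConnectedComponent) : Set H.ConnectedComponent) := by
      intro C hC
      rw [Set.mem_setOf_eq, Set.ncard_eq_toFinset_card'] at hC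
      rw [Finset.mem_coe, Finset.mem_image]
      by_contra hcon
      push Not at hcon
      rw [← Nat.not_even_iff_odd] at hC
      apply hC
      refine even_of_inv _ r ?_ ?_ ?_
      · intro x hx
        rw [Set.mem_toFinset, SimpleGraph.ConnectedComponent.mem_supp_iff] at hx ⊢
        by_cases hrx : r x = x
        · rw [hrx]; exact hx
        · rw [← hx]
          exact (SimpleGraph.ConnectedComponent.sound (hrH x hrx).reachable).symm
      · intro x _
        exact hrr x
      · intro x hx hrx
        rw [Set.mem_toFinset, SimpleGraph.ConnectedComponent.mem_supp_iff] at hx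
        exact hcon x (Finset.mem_filter.2 ⟨mem_univ x, hrx⟩) hx
    have h2 : (univ.filter fun v => r v = v).card ≤ 4 := by
      refine le_trans ?_ hcard
      refine Finset.card_le_card_of_injOn n ?_ n.injective.injOn
      intro v hv
      rw [Finset.mem_coe, Finset.mem_filter] at hv ⊢
      exact ⟨mem_univ _, hrn v hv.2⟩
    calc _ ≤ ((((univ.filter fun v => r v = v).image H.connectedComponentMk :
          Finset H.ConnectedComponent) : Set H.ConnectedComponent)).ncard :=
          Set.ncard_le_ncard h1 (Finset.finite_toSet _)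
      _ = ((univ.filter fun v => r v = v).image H.connectedComponentMk).card :=
          Set.ncard_coe_finset _
      _ ≤ _ := Finset.card_image_le
      _ ≤ 4 := h2
  by_contra hno
  have hno' : ¬ ∃ M₃ : G.Subgraph, M₃.IsPerfectMatching ∧
      ∀ e, ¬ (e ∈ M.edgeSet ∧ e ∈ M₂.edgeSet ∧ e ∈ M₃.edgeSet) := by
    rintro ⟨M₃, h1, h2⟩
    exact hno ⟨M₂, M₃, hM₂, h1, h2⟩
  obtain ⟨A, B, -, -, -, h4, -, h6, -⟩ := FRB.two_matchings G hG M M₂ hM hM₂ 2 2 le_rfl le_rfl
    (fun K hK h => by
      have h1 := FRB.two_le_cut hG hM₂ (core K hK h)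
      rw [FRB.cutN_card] at h1
      convert h1)
    (fun K hK h => by
      have h1 := FRB.two_le_cut hG hM (K := K) (fun h' => core K hK h' h)
      rw [FRB.cutN_card] at h1
      convert h1) hno'
  have h7 := h6.trans hcomp
  omega

end Pool.Agent.Helper77.FRC.ENDF
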